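import Mathlib
import Pool.Agent.X298.PA.B2Main

/-!
# The conjecture of Birch and Swinnerton-Dyer modulo 2 over all the intermediate fields of a Galois extension

Let `K` be a number field, `E : y² = x³ + A x + B` an elliptic curve with `A, B ∈ 𝓞_K`, `F/K` a finite Galois extension with group
`G`, and `S` a set of places of `K` which contains the bad places. For a conjugacy class `C` of `G` and real `γ > π / 2`,
`T > 0` consider the absolutely convergent sum

  `S_C(T) = ∑_{v ∉ S} ∑_{k ≥ 1} (α_v^k + β_v^k) m_C(v^k) e^{iγ k log q_v / T} / (k q_v^k Γ(1 + k log q_v / T))`,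

`m_C(v^k)` the proportion of the elements of `C` in the coset `Frob_v^k` of the inertia group, and for a subgroup `H` of `G` put
`s_H(T) = - Im ∑_C π_H(C) S_C(T)`, `π_H` the permutation character of `G/H`. Suppose only that the `L`-functions
`L_S(E/F^H, s) = L_S(E ⊗ π_H, s)` have meromorphic continuations to `Re s > ρ` for some `ρ < 1` (no functional equation, no
assumption on the reduction of `E`, no hypothesis on zeros). Then for every `H`:

* the limit `ℓ_H(γ) = lim_{T → ∞} s_H(T)` exists for all `γ > π / 2`;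
* `ℓ_H(γ) → (π / 2) (m_H + 2 e_H)` for `γ → ∞`, with `m_H = ord_{s=1} L(E/F^H, s)` and `e_H` the number of the real zeros minus
  the number of the real poles of `L_S(E/F^H, s)` on the right of `1`;
* **`ord_{s=1} L(E/F^H, s) ≡ rk E(F^H) (mod 2)` if and only if `lim_γ lim_T s_H(T) = (π / 2)(rk E(F^H) + 2n)` with an integer
  `n`**.

So the conjecture modulo 2 over all the intermediate fields is a relation between the representation `E(F) ⊗ ℚ` of `G` and the
functions `S_C(T)`, one for each conjugacy class, defined by the numbers of points of `E` modulo the places of `K` outside of `S`.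

Proof: the rotated law with the exact argument of the constant (starting library) and `Im Λ_γ → - π / 2`.
-/

set_option autoImplicit false

open Filter Topology Complex
open IsDedekindDomain NumberField

namespace Pool.Agent.Results.MP_413b36_nt.LayersFromPhases

open Pool.Agent.X298.ST Pool.Agent.X298.EC Pool.Agent.X298.PA.B2

/-- **Birch and Swinnerton-Dyer modulo 2 over all the intermediate fields.** -/
theorem result {K F : Type} [Field K] [NumberField K] [Field F] [NumberField F] [Algebra K F] [IsGalois K F]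
    (S : Set (HeightOneSpectrum (𝓞 K))) (P : Places S → Ideal (𝓞 F)) (_hP : IsAbove P) (A B : 𝓞 K)
    (α β : Places S → ℂ) (hE : IsFrobenius A B α β) (ρ : ℝ) (hρ : ρ < 1) (Λ : Subgroup (F ≃ₐ[K] F) → ℂ → ℂ)
    (hΛ : ∀ H, IsL P α β ρ (perm H) (Λ H)) {V : Type} [AddCommGroup V] [Module ℚ V]
    (τ : Representation ℚ (F ≃ₐ[K] F) V) :
    (∀ (C : ConjClasses (F ≃ₐ[K] F)) (γ T : ℝ), 0 < T → Summable fun x => ‖pTerm P α β
      (open Classical in fun g => if ConjClasses.mk g = C then 1 else 0) γ 1 T x‖) ∧
    ∀ H : Subgroup (F ≃ₐ[K] F), ∃ m : ℤ, meromorphicOrderAt (Λ H) 1 = m ∧ ∃ ℓ : ℝ → ℝ,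
      (∀ γ : ℝ, Real.pi / 2 < γ → Tendsto (fun T : ℝ => phase P α β γ H T) atTop (𝓝 (ℓ γ))) ∧
      Tendsto ℓ atTop (𝓝 (Real.pi / 2 * (m + 2 * excess (Λ H)))) ∧
      (Even (m - rank τ H) ↔ ∃ n : ℤ, Tendsto ℓ atTop (𝓝 (Real.pi / 2 * (rank τ H + 2 * n)))) := by
  refine ⟨fun C γ T hT => p_summable (pure hE) _ γ 1 hT, fun H => ?_⟩
  obtain ⟨m, h1, ℓ, h2, h3⟩ := main hE hρ (hΛ H)
  refine ⟨m, h1, ℓ, h2, h3, ?_⟩
  generalize rank τ H = r
  have hπ : Real.pi / 2 ≠ 0 := by positivity
  constructor
  · rintro ⟨n, hn⟩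
    refine ⟨n + excess (Λ H), ?_⟩
    have e1 : (m : ℝ) + 2 * excess (Λ H) = (r : ℝ) + 2 * ((n + excess (Λ H) : ℤ) : ℝ) := by
      have : m = r + 2 * n := by linarith
      rw [this]
      push_cast
      ring
    rw [← e1]
    exact h3
  · rintro ⟨n, hn⟩
    have h4 := mul_left_cancel₀ hπ (tendsto_nhds_unique h3 hn)
    have h5 : m + 2 * excess (Λ H) = r + 2 * n := by exact_mod_cast h4
    exact ⟨n - excess (Λ H), by linarith⟩

end Pool.Agent.Results.MP_413b36_nt.LayersFromPhases
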