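import Mathlib
import Pool.Agent.Y388.QK.Deg
import Pool.Agent.W672.FK.Lowf
import Pool.Agent.W307.RT.Tors
import Pool.Agent.X293.PT.Main2
import Pool.Agent.X293.CO.Cond
import Pool.Agent.X293.CO.Ord

/-!
# BSD modulo 2 over odd extensions of multiquadratic fields, in the ordering by the conductor

All elliptic curves `E` over `ℚ` with full rational 2-torsion, ordered by the conductor, without any
bound on the height or on the discriminant. For every `m ≠ 1` and `N` there is a finite list of fields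
`M = ℚ(√(q_1 q'_1), ..., √(q_m q'_m))` of degree `2 ^ m`, all the primes `q_i`, `q'_i` larger than
`N` (`M = ℚ` for `m = 0`), and `δ > 0` such that for all large `Z` for some field `M` of the list at
least a proportion `δ` of the curves of conductor at most `Z` satisfies, over ALL the number fields `K`
containing `M` which are contained in a Galois extension of `M` of odd degree: `rk E(K)` is even,
`w(E/K) = 1`, and `ord_{s = 1} L(E/K, s) ≡ rk E(K)` modulo `2` for every continuation of `L(E/K, s)`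
with the functional equation of sign `w(E/K)`.
-/

set_option autoImplicit false

namespace Pool.Agent.Results.MP_413b36_nt.OddExtensionsByConductor

open Finset Filter Topology NumberField

/-- the curve `y² = x³ + A x + B` over `ℚ` -/
def E (A B : ℤ) : WeierstrassCurve ℚ := ⟨0, 0, 0, (A : ℚ), (B : ℚ)⟩

/-- The prime-to-6 part of the conductor of `y² = x³ + A x + B` (there is no prime `p` with `p⁴ ∣ A`
and `p⁶ ∣ B`): the product over the primes `p ≥ 5` dividing `4 A³ + 27 B²` of `p` (multiplicative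
reduction: `p ∤ A`) or `p²` (additive reduction: `p ∣ A`) -/
def Cond6 (c : ℤ × ℤ) : ℕ :=
  ∏ p ∈ (Int.natAbs (4 * c.1 ^ 3 + 27 * c.2 ^ 2)).primeFactors.filter (fun p => 5 ≤ p),
    if (p : ℤ) ∣ c.1 then p ^ 2 else p

/-- the admissible factors: functions with values between `1` and `2 ^ 8 * 3 ^ 5`, for instance the
part of the conductor composed of the primes 2 and 3, or `f = 1` -/
def Factor (f : ℤ × ℤ → ℕ) : Prop := ∀ c, 1 ≤ f c ∧ f c ≤ 2 ^ 8 * 3 ^ 5

/-- The pairs `(A, B)` of integers such that `4 A³ + 27 B² ≠ 0`, there is no prime `p` with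
`p⁴ ∣ A` and `p⁶ ∣ B`, `Z/2 x Z/2` embeds in the group of the rational points of
`y² = x³ + A x + B`, and `f * Cond6 ≤ Z` (for a suitable factor `f`: the conductor is at most `Z`).
Every elliptic curve over `ℚ` with full rational 2-torsion is isomorphic to `E A B` for exactly one
pair with the first three properties. -/
def Fam (f : ℤ × ℤ → ℕ) (Z : ℕ) : Set (ℤ × ℤ) :=
  {c : ℤ × ℤ | 4 * c.1 ^ 3 + 27 * c.2 ^ 2 ≠ 0 ∧
    (∀ p : ℕ, p.Prime → ¬ ((p : ℤ) ^ 4 ∣ c.1 ∧ (p : ℤ) ^ 6 ∣ c.2)) ∧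
    (∃ g : ZMod 2 × ZMod 2 →+ (E c.1 c.2).toAffine.Point, Function.Injective g) ∧
    f c * Cond6 c ≤ Z}

/-- the proportion of the curves of `S` among the curves of size at most `Z` -/
noncomputable def proportion (f : ℤ × ℤ → ℕ) (S : Set (ℤ × ℤ)) (Z : ℕ) : ℝ :=
  ((Fam f Z ∩ S).ncard : ℝ) / (Fam f Z).ncard

/-- the property without the size -/
def Pr (c : ℤ × ℤ) : Prop := 4 * c.1 ^ 3 + 27 * c.2 ^ 2 ≠ 0 ∧
    (∀ p : ℕ, p.Prime → ¬ ((p : ℤ) ^ 4 ∣ c.1 ∧ (p : ℤ) ^ 6 ∣ c.2)) ∧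
    (∃ g : ZMod 2 × ZMod 2 →+ (E c.1 c.2).toAffine.Point, Function.Injective g)

lemma good : Pool.Agent.Y679.Cr.Good Pr := by
  classical
  refine ⟨fun c hc => ⟨?_, ?_⟩, fun H c hc => ?_, Pool.Agent.W672.FK.lowf⟩
  · exact Pool.Agent.Y679.Cr.isMin_of hc.1 hc.2.1
  · exact Pool.Agent.Y679.Cr.full_of (Pool.Agent.W307.RT.tors_iff.2 hc.2.2)
  · unfold Pool.Agent.W307.RT.Cv at hc
    obtain ⟨-, h1, -, -, h2, h3⟩ := mem_filter.1 hc
    exact ⟨h1, h2, Pool.Agent.W307.RT.tors_iff.1 h3⟩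

lemma cond_eq (c : ℤ × ℤ) : Pool.Agent.Y679.Cr.cs c = Cond6 c := by
  unfold Pool.Agent.Y679.Cr.cs Pool.Agent.H925R.Szpiro.condS Cond6
  rw [Pool.Agent.Y679.Cr.D_neg, Int.natAbs_neg]
  refine prod_congr rfl fun p _ => ?_
  by_cases h : (p : ℤ) ∣ c.1
  · rw [if_pos h, if_pos (Int.dvd_neg.2 h)]
  · rw [if_neg h, if_neg fun h' => h (Int.dvd_neg.1 h')]

lemma bdd {f : ℤ × ℤ → ℕ} (hf : Factor f) : Pool.Agent.Y679.Cr.Bdd f :=
  fun c => ⟨(hf c).1, (hf c).2.trans (by norm_num)⟩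

lemma Fam_eq (f : ℤ × ℤ → ℕ) (Z : ℕ) : Fam f Z = Pool.Agent.Y679.Cr.Gm Pr f Z := by
  ext c
  unfold Fam Pool.Agent.Y679.Cr.Gm
  rw [Set.mem_ofPred_eq, Set.mem_ofPred_eq, cond_eq]
  exact ⟨fun h => ⟨⟨h.1, h.2.1, h.2.2.1⟩, h.2.2.2⟩, fun h => ⟨h.1.1, h.1.2.1, h.1.2.2, h.2⟩⟩

section fields

variable (K : Type) [Field K] [NumberField K]

/-- the curve `y² = x³ + A x + B` over `K` -/
def EK (A B : ℤ) : WeierstrassCurve K := ⟨0, 0, 0, (A : K), (B : K)⟩

open Classical in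
/-- the Mordell-Weil rank over `K` -/
noncomputable def rankK (c : ℤ × ℤ) : ℕ := Module.finrank ℤ (EK K c.1 c.2).toAffine.Point

variable {K}

/-- `V` is an equation with coefficients in the ring of integers of the curve `W` over `K` -/
def ModelOf (W : WeierstrassCurve K) (V : WeierstrassCurve (𝓞 K)) : Prop :=
  ∃ C : WeierstrassCurve.VariableChange K, C • W = V.map (algebraMap (𝓞 K) K)

/-- `a_P = N(P) + 1 - #V(𝓞 K / P)`, that is `N(P)` minus the number of the affine solutions of the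
Weierstrass equation modulo `P`; for a prime of multiplicative reduction this is `1` (split) or `-1`
(non-split) -/
noncomputable def aP (V : WeierstrassCurve (𝓞 K)) (P : Ideal (𝓞 K)) : ℤ :=
  (Nat.card (𝓞 K ⧸ P) : ℤ) - Nat.card {z : (𝓞 K ⧸ P) × (𝓞 K ⧸ P) //
    (V.map (Ideal.Quotient.mk P)).toAffine.Equation z.1 z.2}

/-- the quadratic twist by `d` of the curve `V` (the curve `y² = x³ + b₂ x² + 8 b₄ x + 16 b₆`) -/
def twist (V : WeierstrassCurve (𝓞 K)) (d : 𝓞 K) : WeierstrassCurve K :=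
  ⟨0, (d : K) * (V.b₂ : K), 0, 8 * (d : K) ^ 2 * (V.b₄ : K), 16 * (d : K) ^ 3 * (V.b₆ : K)⟩

open Classical in
/-- `w` is the local root number of the elliptic curve `W` at the prime `P`, for three types of
reduction at `P`: good reduction (`1`), multiplicative reduction (`-a_P`), and, for `P` prime to `2`,
the quadratic twist by an integer `d` of odd valuation `n` at `P` of a curve with good reduction at `P`
(`1` if `-1` is a square modulo `P` and `-1` otherwise) -/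
def LocalRoot (W : WeierstrassCurve K) (P : Ideal (𝓞 K)) (w : ℤ) : Prop :=
  (∃ V : WeierstrassCurve (𝓞 K), ModelOf W V ∧ V.Δ ∉ P ∧ w = 1) ∨
  (∃ V : WeierstrassCurve (𝓞 K), ModelOf W V ∧ V.Δ ∈ P ∧ V.c₄ ∉ P ∧ w = -aP V P) ∨
  ((2 : 𝓞 K) ∉ P ∧ ∃ (V : WeierstrassCurve (𝓞 K)) (d : 𝓞 K) (n : ℕ), Odd n ∧ d ∈ P ^ n ∧
    d ∉ P ^ (n + 1) ∧ (∃ C : WeierstrassCurve.VariableChange K, C • W = twist V d) ∧ V.Δ ∉ P ∧
    w = if IsSquare (-1 : 𝓞 K ⧸ P) then 1 else -1)

/-- `w` is the root number `w(W/K)`: the product over all the places of the local root numbers, which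
are `-1` at the infinite places, `f P` at the primes `P`, and `1` outside the finite set `S` -/
def RootNumber (W : WeierstrassCurve K) (w : ℤ) : Prop :=
  ∃ f : Ideal (𝓞 K) → ℤ, (∀ P : Ideal (𝓞 K), P.IsPrime → P ≠ ⊥ → LocalRoot W P (f P)) ∧
    ∃ S : Finset (Ideal (𝓞 K)), (∀ P ∈ S, P.IsPrime ∧ P ≠ ⊥) ∧
      (∀ P : Ideal (𝓞 K), P.IsPrime → P ≠ ⊥ → P ∉ S → f P = 1) ∧
      w = (-1) ^ Nat.card (InfinitePlace K) * ∏ P ∈ S, f P


/-- `P ↦ M P` is a family of integral equations of `W`, the one for `P` minimal at `P` -/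
def Minimal (W : WeierstrassCurve K)
    (M : {P : Ideal (𝓞 K) // P.IsPrime ∧ P ≠ ⊥} → WeierstrassCurve (𝓞 K)) : Prop :=
  ∀ P, ModelOf W (M P) ∧ ∀ V : WeierstrassCurve (𝓞 K), ModelOf W V →
    ∀ n : ℕ, (M P).Δ ∈ P.1 ^ n → V.Δ ∈ P.1 ^ n

open Classical in
/-- the Euler product of `L(W/K, s)`: the factors are `(1 - a_P N(P)^(-s) + N(P)^(1 - 2 s))⁻¹` at the
primes `P` of good reduction and `(1 - a_P N(P)^(-s))⁻¹` at those of bad reduction -/
noncomputable def euler (M : {P : Ideal (𝓞 K) // P.IsPrime ∧ P ≠ ⊥} → WeierstrassCurve (𝓞 K))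
    (s : ℂ) : ℂ :=
  ∏' P : {P : Ideal (𝓞 K) // P.IsPrime ∧ P ≠ ⊥},
    (1 - (aP (M P) P.1 : ℂ) * (Nat.card (𝓞 K ⧸ P.1) : ℂ) ^ (-s) +
      (if (M P).Δ ∈ P.1 then 0 else (Nat.card (𝓞 K ⧸ P.1) : ℂ) ^ (1 - 2 * s)))⁻¹

/-- `f` is an analytic continuation of `L(W/K, s)` to the connected open set `U`, which contains the
half-plane `Re s > 3 / 2` and `s = 1` -/
def Continues (W : WeierstrassCurve K) (U : Set ℂ) (f : ℂ → ℂ) : Prop :=
  IsOpen U ∧ IsConnected U ∧ (1 : ℂ) ∈ U ∧ {s : ℂ | 3 / 2 < s.re} ⊆ U ∧ AnalyticOnNhd ℂ f U ∧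
    ∃ M : {P : Ideal (𝓞 K) // P.IsPrime ∧ P ≠ ⊥} → WeierstrassCurve (𝓞 K), Minimal W M ∧
      ∀ s : ℂ, 3 / 2 < s.re → f s = euler M s

variable (K) in
/-- `(2 (2 π)^(-s) Γ(s)) ^ [K : ℚ] A^(s / 2) f(s)` -/
noncomputable def Lam (A : ℝ) (f : ℂ → ℂ) (s : ℂ) : ℂ :=
  (2 * (2 * (Real.pi : ℂ)) ^ (-s) * Complex.Gamma s) ^ Module.finrank ℚ K * (A : ℂ) ^ (s / 2) * f s

variable (K) in
/-- the functional equation of sign `w`, for some `A > 0`, at the points close to `s = 1` -/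
def FunctionalEquation (w : ℤ) (f : ℂ → ℂ) : Prop :=
  ∃ A : ℝ, 0 < A ∧ ∀ᶠ s in 𝓝 (1 : ℂ), Lam K A f s = w * Lam K A f (2 - s)

lemma an_gamma : AnalyticAt ℂ Complex.Gamma 1 := by
  have hU : IsOpen {s : ℂ | 0 < s.re} := isOpen_lt continuous_const Complex.continuous_re
  have h1 : DifferentiableOn ℂ Complex.Gamma {s : ℂ | 0 < s.re} := by
    intro s hs
    refine (Complex.differentiableAt_Gamma s fun m hm => ?_).differentiableWithinAt
    have hs' : 0 < s.re := hs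
    rw [hm, Complex.neg_re, Complex.natCast_re] at hs'
    have : (0 : ℝ) ≤ m := Nat.cast_nonneg m
    linarith
  exact h1.analyticAt (hU.mem_nhds (by simp))

lemma even_of {W : WeierstrassCurve K} {U : Set ℂ} {f : ℂ → ℂ} (hf : Continues W U f)
    (hfe : FunctionalEquation K 1 f) : Even (analyticOrderNatAt f 1) := by
  obtain ⟨-, -, h1, -, hU, -⟩ := hf
  obtain ⟨A, hA, hfe⟩ := hfe
  have hpi : (2 * (Real.pi : ℂ)) ∈ Complex.slitPlane := by
    have : (2 * (Real.pi : ℂ)) = ((2 * Real.pi : ℝ) : ℂ) := by push_cast; ring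
    rw [this]
    exact Complex.ofReal_mem_slitPlane.2 (by positivity)
  have hAs : (A : ℂ) ∈ Complex.slitPlane := Complex.ofReal_mem_slitPlane.2 hA
  have ha : AnalyticAt ℂ (fun s : ℂ => (2 * (2 * (Real.pi : ℂ)) ^ (-s) * Complex.Gamma s) ^
      Module.finrank ℚ K * (A : ℂ) ^ (s / 2)) 1 := by
    refine AnalyticAt.mul (AnalyticAt.pow (AnalyticAt.mul (AnalyticAt.mul analyticAt_const
      (AnalyticAt.cpow analyticAt_const analyticAt_id.neg hpi)) an_gamma) _)
      (AnalyticAt.cpow analyticAt_const ?_ hAs)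
    exact analyticAt_id.div analyticAt_const (by norm_num)
  refine Pool.Agent.X293.CO.even_order (hU 1 h1) ha ?_ ?_
  · have e1 : Complex.Gamma 1 ≠ 0 := by rw [Complex.Gamma_one]; exact one_ne_zero
    have e2 : (2 * (Real.pi : ℂ)) ^ (-1 : ℂ) ≠ 0 := by
      rw [Ne, Complex.cpow_eq_zero_iff]
      intro h
      exact Complex.slitPlane_ne_zero hpi h.1
    have e3 : (A : ℂ) ^ ((1 : ℂ) / 2) ≠ 0 := by
      rw [Ne, Complex.cpow_eq_zero_iff]
      intro h
      exact Complex.slitPlane_ne_zero hAs h.1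
    exact mul_ne_zero (pow_ne_zero _ (mul_ne_zero (mul_ne_zero two_ne_zero e2) e1)) e3
  · filter_upwards [hfe] with s hs
    rw [Int.cast_one, one_mul] at hs
    exact hs

end fields

/-- `K = ℚ(√d_1, ..., √d_m)` -/
def IsField {m : ℕ} (d : Fin m → ℕ) (K : Type) [Field K] [NumberField K] : Prop :=
  ∃ x : Fin m → K, (∀ i, x i ^ 2 = (d i : K)) ∧ IntermediateField.adjoin ℚ (Set.range x) = ⊤

/-- The tuples `(q_1 q'_1, ..., q_m q'_m)`, where the `q_i` and `q'_i` are `2 m` distinct primes, all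
larger than `N`. -/
def Tuple {m : ℕ} (N : ℕ) (d : Fin m → ℕ) : Prop :=
  ∃ q q' : Fin m → ℕ, (∀ i, d i = q i * q' i) ∧ (∀ i, (q i).Prime ∧ N < q i) ∧
    (∀ i, (q' i).Prime ∧ N < q' i) ∧ Function.Injective q ∧ Function.Injective q' ∧
    ∀ i j, q i ≠ q' j

/-- The curves `E` such that for the field `M = ℚ(√d_1, ..., √d_m)` the rank of `E(M)` is zero and, for
every Galois extension `F` of `M` of odd degree and every field `K` between `M` and `F` (`K = M` and
`K = F` allowed), the rank of `E(K)` is even, the root number `w(E/K)` is `1`, and the order at `s = 1`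
of every continuation of `L(E/K, s)` with the functional equation of sign `1` is congruent to the
rank of `E(K)` modulo `2`. -/
def BSDModTwo {m : ℕ} (d : Fin m → ℕ) : Set (ℤ × ℤ) :=
  {c | ∀ (M F : Type) [Field M] [NumberField M] [Field F] [NumberField F] [Algebra M F]
    [IsGalois M F], IsField d M → Odd (Module.finrank M F) → rankK M c = 0 ∧
      ∀ K : IntermediateField M F, Even (rankK K c) ∧ RootNumber (EK K c.1 c.2) 1 ∧
        ∀ (U : Set ℂ) (f : ℂ → ℂ), Continues (EK K c.1 c.2) U f → FunctionalEquation K 1 f →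
          Even (analyticOrderNatAt f 1 + rankK K c)}

lemma gen_of {m : ℕ} {d : Fin m → ℕ} {K : Type} [Field K] [NumberField K] (h : IsField d K) :
    Pool.Agent.TH841.NF.Gen K (fun j => (d j : ℤ)) := by
  obtain ⟨x, hx, hg⟩ := h
  exact ⟨x, fun i => by rw [hx i, Int.cast_natCast], hg⟩

lemma good_of {m : ℕ} {d : Fin m → ℕ} {c : ℤ × ℤ}
    (hD : 4 * c.1 ^ 3 + 27 * c.2 ^ 2 ≠ 0)
    (hT : ∃ f : ZMod 2 × ZMod 2 →+ (E c.1 c.2).toAffine.Point, Function.Injective f)
    (h : Pool.Agent.X293.PT.QP d c) : c ∈ BSDModTwo d := by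
  intro M F _ _ _ _ _ _ hM hodd
  have hT' := Pool.Agent.W307.RT.tors_iff.2 hT
  have hE : Pool.Agent.X293.PT.PE M c := h hD hT' M (gen_of hM)
  refine ⟨hE.1, fun K => ?_⟩
  obtain ⟨h1, h2⟩ := Pool.Agent.X293.PT.parity_PE M F hodd hD hT' hE K
  exact ⟨h1, h2, fun U f hf hfe => (even_of hf hfe).add h1⟩

lemma tup8 {m N : ℕ} {d : Fin m → ℕ} (h : Pool.Agent.Y667.QK.R.E.Tup8 m N d) : Tuple N d := by
  obtain ⟨q, q', h1, h2, h3, h4⟩ := h
  exact ⟨q, q', h1, fun i => ⟨(h2 i).1, (h2 i).2.1⟩, fun i => ⟨(h3 i).1, (h3 i).2.1⟩, h4⟩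

lemma deg_of {m N : ℕ} {d : Fin m → ℕ} (hd : Tuple N d) (K : Type) [Field K] [NumberField K]
    (hK : IsField d K) : Module.finrank ℚ K = 2 ^ m := by
  obtain ⟨q, q', h1, h2, h3, h4, h5, h6⟩ := hd
  refine Pool.Agent.Y388.QK.DEG m q q' (fun j => (h2 j).1) (fun j => (h3 j).1) h4 h5 h6 K ?_
  have := gen_of hK
  have e : (fun j => ((q j * q' j : ℕ) : ℤ)) = fun j => (d j : ℤ) := by
    funext j
    rw [h1 j]
  rw [e]
  exact this

/-- one of finitely many -/
lemma pack {ι : Type} (L : Finset ι) (p : ι → ℕ → ℝ) (δ : ℝ)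
    (h : ∀ᶠ Z : ℕ in atTop, ∃ d ∈ L, δ ≤ p d Z) : ∃ d ∈ L, ∃ᶠ Z : ℕ in atTop, δ ≤ p d Z := by
  by_contra hcon
  push Not at hcon
  have h1 : ∀ᶠ Z : ℕ in atTop, ∀ d ∈ L, ¬ δ ≤ p d Z := by
    rw [Filter.eventually_all_finset]
    intro d hd
    exact (hcon d hd).mono fun Z hZ => not_le.2 hZ
  obtain ⟨Z, hZ1, hZ2⟩ := (h.and h1).exists
  obtain ⟨d, hd, hle⟩ := hZ1
  exact hZ2 d hd hle

/-- **Theorem.** Order the elliptic curves over `ℚ` with full rational 2-torsion by the conductor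
(times an arbitrary factor as in `Factor`), with no bound on the height. There are finitely many
curves of size at most `Z`, their number tends to infinity with `Z`, and for all `m ≠ 1`, `N` there
are a finite list `L` of tuples of products of two primes larger than `N`, the `2 m` primes distinct,
so that the fields `M = ℚ(√d_1, ..., √d_m)` have degree `2 ^ m`, and `δ > 0`, both independent of the
factor, such that for all large `Z` for some `d` in `L` at least a proportion `δ` of the curves of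
size at most `Z` belongs to `BSDModTwo d`; and one `d` in `L` has this property for arbitrarily
large `Z`. -/
theorem result :
    (∀ f : ℤ × ℤ → ℕ, Factor f →
      (∀ Z : ℕ, (Fam f Z).Finite) ∧ Tendsto (fun Z : ℕ => (Fam f Z).ncard) atTop atTop) ∧
    ∀ m N : ℕ, m ≠ 1 → ∃ L : Finset (Fin m → ℕ), (∀ d ∈ L, Tuple N d ∧
        ∀ (M : Type) [Field M] [NumberField M], IsField d M → Module.finrank ℚ M = 2 ^ m) ∧
      ∃ δ : ℝ, 0 < δ ∧ ∀ f : ℤ × ℤ → ℕ, Factor f →
        (∀ᶠ Z : ℕ in atTop, ∃ d ∈ L, δ ≤ proportion f (BSDModTwo d) Z) ∧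
        ∃ d ∈ L, ∃ᶠ Z : ℕ in atTop, δ ≤ proportion f (BSDModTwo d) Z := by
  classical
  refine ⟨fun f hf => ⟨fun Z => ?_, ?_⟩, fun m N hm => ?_⟩
  · rw [Fam_eq]
    exact Pool.Agent.Y679.Cr.Gm_fin good (bdd hf) Z
  · simp only [Fam_eq]
    exact Pool.Agent.Y679.Cr.Gm_tendsto good (bdd hf)
  · obtain ⟨L, hL, δ0, hδ0, H0, h0⟩ := Pool.Agent.X293.PT.allH m N hm
    obtain ⟨δ, hδ, h⟩ := Pool.Agent.X293.CO.cond_list L (fun d => Pool.Agent.X293.PT.QP d) good
      ⟨δ0, hδ0, H0, h0⟩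
    refine ⟨L, fun d hd => ⟨tup8 (hL d hd), fun M _ _ hM => deg_of (tup8 (hL d hd)) M hM⟩, δ, hδ,
      fun f hf => ?_⟩
    have key : ∀ᶠ Z : ℕ in atTop, ∃ d ∈ L, δ ≤ proportion f (BSDModTwo d) Z := by
      filter_upwards [h f (bdd hf)] with Z hZ
      obtain ⟨d, hd, hle⟩ := hZ
      refine ⟨d, hd, hle.trans ?_⟩
      unfold proportion
      rw [Fam_eq]
      refine div_le_div_of_nonneg_right (Nat.cast_le.2 (Set.ncard_le_ncard ?_
        ((Pool.Agent.Y679.Cr.Gm_fin good (bdd hf) Z).subset Set.inter_subset_left)))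
        (Nat.cast_nonneg _)
      rintro k ⟨h1, h2⟩
      exact ⟨h1, good_of h1.1.1 h1.1.2.2 h2⟩
    exact ⟨key, pack L (fun d Z => proportion f (BSDModTwo d) Z) δ key⟩

end Pool.Agent.Results.MP_413b36_nt.OddExtensionsByConductor
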