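import Pool.Agent.X156.SD.Bsd

/-!
# Birch and Swinnerton-Dyer modulo 2 over Galois extensions of even degree

Let `E : y² = x³ + A x + B` be an elliptic curve over a number field `K`, `A, B ∈ 𝓞_K`, `F/K` a finite
Galois extension with group `G`, `S` a set of places of `K` which contains those at which the model
is singular. No condition on the reduction of `E`.

Hypothesis: for every complex representation `τ` of `G` the `L`-function `L_S(E ⊗ τ, s)` has a
meromorphic continuation to `Re s > ρ` for a fixed `ρ < 1`. (No functional equation, no root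
number, no statement on zeros or poles.)

Then the functions `L_S(E ⊗ π_H, s) = L_S(E/F^H, s)`, `π_H` the permutation character of `G/H`, have
continuations; let `o(H)` be the order at `s = 1` and `rk(H)` the rank of `E(F^H)`.

1. There is a self-dual complex representation `V` of `G` with `o(H) ≡ dim V^H (mod 2)` for all `H`.
2. Let `H` be a subgroup of `G` with a normal subgroup of odd order and index `2^(n+1)`. Then
   `o(1)` is congruent modulo 2 to the sum of the `o(J)`, and `rk(1)` to the sum of the `rk(J)`,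
   where `J` are the subgroups of index two of `H`. So if the congruence `o ≡ rk (mod 2)` holds over
   the fields `F^J`, then it holds over `F`.
3. This applies to the Sylow `2`-subgroups `H` if `F/K` has even degree: then the fields `F^J` are
   the quadratic extensions in `F` of the field `F^H` of odd degree over `K`.
4. If `z ∈ G` has order two and is a product of squares, then `o(1) ≡ o(⟨z⟩)`, `rk(1) ≡ rk(⟨z⟩)`.
-/

set_option autoImplicit false

open IsDedekindDomain NumberField Module

namespace Pool.Agent.Results.MP_413b36_nt.OrdersAndRanksGaloisExtensions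

open Pool.Agent.X298.ST Pool.Agent.X298.EC Pool.Agent.X156.SD Pool.Agent.X156.PR

theorem result {K F : Type} [Field K] [NumberField K] [Field F] [NumberField F] [Algebra K F]
    [IsGalois K F] (S : Set (HeightOneSpectrum (𝓞 K))) (P : Places S → Ideal (𝓞 F))
    (_hP : IsAbove P) (A B : 𝓞 K) (hΔ : (curve A B).Δ ≠ 0) (α β : Places S → ℂ)
    (hE : IsFrobenius A B α β) (ρ : ℝ) (hρ : ρ < 1)
    (hΛ : ∀ (n : ℕ) (τ : (F ≃ₐ[K] F) →* Matrix (Fin n) (Fin n) ℂ),
      ∃ Λ, IsL P α β ρ (fun g => (τ g).trace) Λ) :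
    ∃ o : Subgroup (F ≃ₐ[K] F) → ℤ,
      (∀ H : Subgroup (F ≃ₐ[K] F), (∃ Λ, IsL P α β ρ (perm H) Λ) ∧
        ∀ Λ, IsL P α β ρ (perm H) Λ → meromorphicOrderAt Λ 1 = (o H : WithTop ℤ)) ∧
      -- 1
      (∃ (V : Type) (_ : AddCommGroup V) (_ : Module ℂ V) (_ : FiniteDimensional ℂ V)
        (σ : (F ≃ₐ[K] F) →* (V →ₗ[ℂ] V)), SelfDual σ ∧
        ∀ H : Subgroup (F ≃ₐ[K] F), Even (o H - finrank ℂ (fixS σ H))) ∧
      -- 2
      (∀ H N : Subgroup (F ≃ₐ[K] F), N ≤ H → (N.subgroupOf H).Normal → Odd (Nat.card N) →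
        ∀ n : ℕ, N.relIndex H = 2 ^ (n + 1) →
          Even (o ⊥ - ∑ J ∈ halves H, o J) ∧
          Even ((rank ((curve A B).baseChange F) : ℤ) -
            ∑ J ∈ halves H, (rk (curve A B) J : ℤ)) ∧
          ((∀ J ∈ halves H, Even (o J - rk (curve A B) J)) →
            Even (o ⊥ - rank ((curve A B).baseChange F)))) ∧
      -- 3
      (Even (finrank K F) → ∀ Q : Sylow 2 (F ≃ₐ[K] F),
        (∀ J ∈ halves (Q : Subgroup (F ≃ₐ[K] F)), Even (o J - rk (curve A B) J)) →
          Even (o ⊥ - rank ((curve A B).baseChange F))) ∧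
      -- 4
      (∀ z : F ≃ₐ[K] F, z * z = 1 →
        z ∈ Subgroup.closure (Set.range fun g : F ≃ₐ[K] F => g ^ 2) →
          Even (o ⊥ - o (Subgroup.zpowers z)) ∧
          Even ((rank ((curve A B).baseChange F) : ℤ) - rk (curve A B) (Subgroup.zpowers z))) := by
  obtain ⟨V, i1, i2, i3, σ, o, hσ, h⟩ := exists_order hρ hE hΛ
  obtain ⟨h1, h2⟩ := main (curve A B) hΔ o hσ fun H => (h H).2.2
  refine ⟨o, fun H => ⟨(h H).1, (h H).2.1⟩, ⟨V, i1, i2, i3, σ, hσ, fun H => ?_⟩, h1, ?_, h2⟩
  · apply even_of_cast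
    rw [Int.cast_sub, (h H).2.2, Int.cast_natCast, sub_self]
  · intro he Q
    obtain ⟨n, hn⟩ := sylow_halves he Q
    have hb : ((⊥ : Subgroup (F ≃ₐ[K] F)).subgroupOf (Q : Subgroup (F ≃ₐ[K] F))).Normal := by
      rw [Subgroup.bot_subgroupOf]
      infer_instance
    exact (h1 Q ⊥ bot_le hb (by rw [Subgroup.card_bot]; exact odd_one) n hn).2.2

end Pool.Agent.Results.MP_413b36_nt.OrdersAndRanksGaloisExtensions
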